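import Mathlib

/-! Generators of adjoint groups of nilpotent algebras. -/

set_option linter.unusedVariables false
set_option linter.style.longLine false
set_option linter.unusedSectionVars false

namespace Pool.Agent.NilRank

open Module

variable {F A : Type*} [Field F] [Ring A] [Algebra F A]

theorem pow_mem' {B : Submodule F A} (hB : ∀ b ∈ B, ∀ b' ∈ B, b * b' ∈ B) {b : A} (hb : b ∈ B)
    (i : ℕ) : b ^ (i + 1) ∈ B := by
  induction i with
  | zero => simpa using hb
  | succ i ih => rw [pow_succ]; exact hB _ ih _ hb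

theorem geom_mem {B : Submodule F A} (hB : ∀ b ∈ B, ∀ b' ∈ B, b * b' ∈ B) {b : A} (hb : b ∈ B)
    (n : ℕ) : (∑ i ∈ Finset.range (n + 1), (-b) ^ i) - 1 ∈ B := by
  rw [Finset.sum_range_succ', pow_zero, add_sub_cancel_right]
  exact Submodule.sum_mem _ fun i _ => pow_mem' hB (B.neg_mem hb) i

/-- `1 + b` as a unit -/
noncomputable def mkU (b : A) (n : ℕ) (hn : b ^ (n + 1) = 0) : Aˣ where
  val := 1 + b
  inv := ∑ i ∈ Finset.range (n + 1), (-b) ^ i
  val_inv := by
    have h := mul_neg_geom_sum (-b) (n + 1)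
    rw [sub_neg_eq_add, neg_pow, hn, mul_zero, sub_zero] at h
    exact h
  inv_val := by
    have h := geom_sum_mul_neg (-b) (n + 1)
    rw [sub_neg_eq_add, neg_pow, hn, mul_zero, sub_zero] at h
    exact h

theorem inv_mem {B : Submodule F A} (hB : ∀ b ∈ B, ∀ b' ∈ B, b * b' ∈ B) {n : ℕ}
    (hn : ∀ b ∈ B, b ^ (n + 1) = 0) {u : Aˣ} (hu : (u : A) - 1 ∈ B) :
    ((u⁻¹ : Aˣ) : A) - 1 ∈ B := by
  have h1 : u = mkU ((u : A) - 1) n (hn _ hu) := by
    ext
    simp [mkU]
  have h2 : ((u⁻¹ : Aˣ) : A) = ∑ i ∈ Finset.range (n + 1), (-((u : A) - 1)) ^ i := by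
    conv_lhs => rw [h1]
    rfl
  rw [h2]
  exact geom_mem hB hu n

theorem closure_mem {B : Submodule F A} (hB : ∀ b ∈ B, ∀ b' ∈ B, b * b' ∈ B) {n : ℕ}
    (hn : ∀ b ∈ B, b ^ (n + 1) = 0) {u : Aˣ}
    (hu : u ∈ Subgroup.closure {u : Aˣ | (u : A) - 1 ∈ B}) : (u : A) - 1 ∈ B := by
  induction hu using Subgroup.closure_induction with
  | mem x hx => exact hx
  | one => simp
  | mul x y _ _ hx hy =>
    have : ((x * y : Aˣ) : A) - 1 = ((x : A) - 1) + ((y : A) - 1) + ((x : A) - 1) * ((y : A) - 1) := by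
      push_cast
      noncomm_ring
    rw [this]
    exact B.add_mem (B.add_mem hx hy) (hB _ hx _ hy)
  | inv x _ hx => exact inv_mem hB hn hx

/-- number of generators of the group `1 + B` -/
theorem card_le_of_closure_eq [FiniteDimensional F A] {B Q : Submodule F A} (hQB : Q ≤ B)
    (hB : ∀ b ∈ B, ∀ b' ∈ B, b * b' ∈ Q) {n : ℕ} (hn : ∀ b ∈ B, b ^ (n + 1) = 0)
    (s : Finset Aˣ)
    (hs : Subgroup.closure (s : Set Aˣ) = Subgroup.closure {u : Aˣ | (u : A) - 1 ∈ B}) :
    finrank F B ≤ finrank F Q + s.card := by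
  classical
  have hB' : ∀ b ∈ B, ∀ b' ∈ B, b * b' ∈ B := fun b hb b' hb' => hQB (hB b hb b' hb')
  set T : Finset (A ⧸ Q) := s.image (fun u : Aˣ => Q.mkQ ((u : A) - 1)) with hT
  have key : ∀ u ∈ Subgroup.closure (s : Set Aˣ), Q.mkQ ((u : A) - 1) ∈ Submodule.span F (T : Set (A ⧸ Q)) := by
    intro u hu
    induction hu using Subgroup.closure_induction with
    | mem x hx =>
      apply Submodule.subset_span
      simp only [hT, Finset.coe_image]
      exact ⟨x, hx, rfl⟩
    | one => simp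
    | mul x y hx' hy' hx hy =>
      rw [hs] at hx' hy'
      have h1 := closure_mem hB' hn hx'
      have h2 := closure_mem hB' hn hy'
      have : ((x * y : Aˣ) : A) - 1 = ((x : A) - 1) + ((y : A) - 1) + ((x : A) - 1) * ((y : A) - 1) := by
        push_cast
        noncomm_ring
      rw [this, map_add, map_add]
      have h3 : Q.mkQ (((x : A) - 1) * ((y : A) - 1)) = 0 := by
        rw [Submodule.mkQ_apply, Submodule.Quotient.mk_eq_zero]
        exact hB _ h1 _ h2
      rw [h3, add_zero]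
      exact Submodule.add_mem _ hx hy
    | inv x hx' hx =>
      rw [hs] at hx'
      have h1 := closure_mem hB' hn hx'
      have h2 := inv_mem hB' hn h1
      have h4 : (x : A) * ((x⁻¹ : Aˣ) : A) = 1 := Units.mul_inv x
      have : ((x⁻¹ : Aˣ) : A) - 1 = -((x : A) - 1) - ((x : A) - 1) * (((x⁻¹ : Aˣ) : A) - 1) := by
        rw [mul_sub, sub_mul, h4]
        noncomm_ring
      rw [this, map_sub, map_neg]
      have h3 : Q.mkQ (((x : A) - 1) * (((x⁻¹ : Aˣ) : A) - 1)) = 0 := by
        rw [Submodule.mkQ_apply, Submodule.Quotient.mk_eq_zero]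
        exact hB _ h1 _ h2
      rw [h3, sub_zero]
      exact Submodule.neg_mem _ hx
  have hle : B.map Q.mkQ ≤ Submodule.span F (T : Set (A ⧸ Q)) := by
    rintro _ ⟨b, hb, rfl⟩
    have h1 := key (mkU b n (hn b hb)) (by
      rw [hs]
      apply Subgroup.subset_closure
      show ((mkU b n (hn b hb) : Aˣ) : A) - 1 ∈ B
      simpa [mkU] using hb)
    simpa [mkU] using h1
  have h1 : finrank F (B.map Q.mkQ) ≤ s.card := by
    calc finrank F (B.map Q.mkQ) ≤ finrank F (Submodule.span F (T : Set (A ⧸ Q))) :=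
          Submodule.finrank_mono hle
      _ ≤ T.card := finrank_span_finset_le_card T
      _ ≤ s.card := Finset.card_image_le
  have h2 := (Q.mkQ.domRestrict B).finrank_range_add_finrank_ker
  rw [LinearMap.range_domRestrict, LinearMap.ker_domRestrict, Submodule.ker_mkQ] at h2
  have h3 : finrank F (Submodule.comap B.subtype Q) ≤ finrank F Q := by
    have h4 := Submodule.finrank_map_subtype_eq B (Submodule.comap B.subtype Q)
    rw [← h4]
    apply Submodule.finrank_mono
    rw [Submodule.map_comap_subtype]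
    exact inf_le_right
  omega

end Pool.Agent.NilRank
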