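import Mathlib

/-! Rank of multiplication operators in commutative nilpotent algebras: a nilpotent commutative
algebra `V` of dimension `N` has a subalgebra `B` with `dim B / B² ≥ N / 9`. -/

set_option linter.unusedVariables false
set_option linter.style.longLine false
set_option linter.unusedSectionVars false

namespace Pool.Agent.NilRank

open Module

theorem finrank_map_add {F A A' : Type*} [DivisionRing F] [AddCommGroup A] [Module F A]
    [AddCommGroup A'] [Module F A'] [FiniteDimensional F A] (g : A →ₗ[F] A')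
    (K : Submodule F A) :
    finrank F (K.map g) + finrank F (K ⊓ LinearMap.ker g : Submodule F A) = finrank F K := by
  have h1 := (g.domRestrict K).finrank_range_add_finrank_ker
  rw [LinearMap.range_domRestrict] at h1
  rw [LinearMap.ker_domRestrict] at h1
  have h2 : (K ⊓ LinearMap.ker g : Submodule F A) =
      (Submodule.comap K.subtype (LinearMap.ker g)).map K.subtype := by
    rw [Submodule.map_comap_subtype]
  rw [h2]
  have h3 := Submodule.finrank_map_subtype_eq K (Submodule.comap K.subtype (LinearMap.ker g))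
  omega

variable {F A : Type*} [Field F] [CommRing A] [Algebra F A] [FiniteDimensional F A]

/-- multiplication by `y` as a linear map -/
noncomputable abbrev mu (F : Type*) {A : Type*} [Field F] [CommRing A] [Algebra F A] (y : A) :
    A →ₗ[F] A := LinearMap.mulLeft F y

/-- dimension -/
noncomputable abbrev dm (U : Submodule F A) : ℕ := finrank F U

theorem dm_mono {U W : Submodule F A} (h : U ≤ W) : dm U ≤ dm W := Submodule.finrank_mono h

theorem dm_sup_inf (U W : Submodule F A) : dm (U ⊔ W) + dm (U ⊓ W) = dm U + dm W :=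
  Submodule.finrank_sup_add_finrank_inf_eq U W

theorem dm_mkQ (X K : Submodule F A) : finrank F (K.map X.mkQ) + dm X = dm (K ⊔ X) := by
  have h := finrank_map_add X.mkQ (K ⊔ X)
  rw [Submodule.map_sup, Submodule.ker_mkQ] at h
  have h1 : X.map X.mkQ = ⊥ := by
    rw [eq_bot_iff]
    rintro _ ⟨v, hv, rfl⟩
    simpa using hv
  rw [h1, sup_bot_eq, inf_eq_right.2 le_sup_right] at h
  exact h

/-- rank-nullity relative to a subspace: `K₁ = {v ∈ K : y v ∈ X}` -/
theorem dm_ker (X K : Submodule F A) (y : A) :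
    dm (K ⊓ X.comap (mu F y)) + dm (K.map (mu F y) ⊔ X) = dm K + dm X := by
  have h := finrank_map_add (X.mkQ ∘ₗ mu F y) K
  rw [LinearMap.ker_comp, Submodule.ker_mkQ, Submodule.map_comp] at h
  have h2 := dm_mkQ X (K.map (mu F y))
  unfold dm at *
  omega

/-- the halving lemma -/
theorem halving {X K : Submodule F A} {y g : A} {ρ : ℕ}
    (hy : dm (K.map (mu F y) ⊔ X) = dm X + ρ) (hg : dm (K.map (mu F g) ⊔ X) ≤ dm X + ρ)
    (hyg : dm (K.map (mu F (y - g)) ⊔ X) ≤ dm X + ρ) :
    2 * dm ((K ⊓ X.comap (mu F y)).map (mu F g) ⊔ (K.map (mu F y) ⊔ X)) ≤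
      2 * dm (K.map (mu F y) ⊔ X) + ρ := by
  set K₁ := K ⊓ X.comap (mu F y) with hK₁
  set X₁ := K.map (mu F y) ⊔ X with hX₁
  set U₁ := K.map (mu F g) ⊔ X with hU₁
  set U₂ := K.map (mu F (y - g)) ⊔ X with hU₂
  set W := K₁.map (mu F g) ⊔ X with hW
  have h1 : W ≤ U₁ ⊓ U₂ := by
    refine le_inf (sup_le_sup_right (Submodule.map_mono inf_le_left) _) (sup_le ?_ le_sup_right)
    rintro _ ⟨v, ⟨hv, hyv⟩, rfl⟩
    have : mu F g v = mu F y v - mu F (y - g) v := by
      simp [sub_mul]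
    rw [this]
    refine Submodule.sub_mem _ (Submodule.mem_sup_right hyv) ?_
    exact Submodule.mem_sup_left ⟨v, hv, rfl⟩
  have h2 : W ⊔ X₁ ≤ U₁ ⊔ U₂ := by
    refine sup_le (h1.trans (inf_le_left.trans le_sup_left)) (sup_le ?_ ?_)
    · rintro _ ⟨v, hv, rfl⟩
      have : mu F y v = mu F g v + mu F (y - g) v := by
        simp [sub_mul]
      rw [this]
      exact Submodule.add_mem_sup (Submodule.mem_sup_left ⟨v, hv, rfl⟩)
        (Submodule.mem_sup_left ⟨v, hv, rfl⟩)
    · exact le_sup_right.trans le_sup_left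
  have h3 := dm_sup_inf U₁ U₂
  have h4 := dm_mono h1
  have h5 := dm_mono h2
  have h6 := dm_sup_inf W X₁
  have h7 : dm X ≤ dm (W ⊓ X₁) := dm_mono (le_inf le_sup_right le_sup_right)
  have h8 : K₁.map (mu F g) ⊔ X₁ = W ⊔ X₁ := by
    rw [hW, sup_assoc, sup_eq_right.2 (le_sup_right : X ≤ X₁)]
  rw [h8]
  unfold dm at *
  omega

/-- greedy choice: large `K'` and small `X'` with `V K' ≤ X'` -/
theorem greedy (V : Submodule F A) (ρ : ℕ) : ∀ X K : Submodule F A, K ≤ V → X ≤ V →
    (∀ v ∈ V, ∀ k ∈ K, v * k ∈ K) → (∀ v ∈ V, ∀ x ∈ X, v * x ∈ X) →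
    (∀ y ∈ V, dm (K.map (mu F y) ⊔ X) ≤ dm X + ρ) →
    ∃ K' X' : Submodule F A, K' ≤ K ∧ X' ≤ V ∧ (∀ v ∈ V, ∀ k ∈ K', v * k ∈ K') ∧
      (∀ v ∈ V, ∀ x ∈ X', v * x ∈ X') ∧ (∀ v ∈ V, ∀ k ∈ K', v * k ∈ X') ∧
      dm K ≤ dm K' + 2 * ρ ∧ dm X' ≤ dm X + 2 * ρ := by
  induction ρ using Nat.strong_induction_on with
  | _ ρ ih =>
  intro X K hK hX hVK hVX hρ
  by_cases h0 : ρ = 0
  · subst h0
    refine ⟨K, X, le_refl _, hX, hVK, hVX, ?_, by omega, by omega⟩
    intro v hv k hk
    have h1 := hρ v hv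
    have h2 : K.map (mu F v) ⊔ X = X := by
      symm
      apply Submodule.eq_of_le_of_finrank_le le_sup_right
      simpa using h1
    rw [← h2]
    exact Submodule.mem_sup_left ⟨k, hk, rfl⟩
  by_cases hex : ∃ y ∈ V, dm (K.map (mu F y) ⊔ X) = dm X + ρ
  · obtain ⟨y, hyV, hy⟩ := hex
    have hbound : ∀ g ∈ V, dm ((K ⊓ X.comap (mu F y)).map (mu F g) ⊔ (K.map (mu F y) ⊔ X)) ≤
        dm (K.map (mu F y) ⊔ X) + ρ / 2 := by
      intro g hg
      have := halving hy (hρ g hg) (hρ (y - g) (V.sub_mem hyV hg))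
      omega
    obtain ⟨K', X', k1, k2, k3, k4, k5, k6, k7⟩ := ih (ρ / 2) (by omega) (K.map (mu F y) ⊔ X)
      (K ⊓ X.comap (mu F y)) (inf_le_left.trans hK) (sup_le (by
        rintro _ ⟨v, hv, rfl⟩
        exact hK (hVK y hyV v hv)) hX) (by
        rintro v hv k ⟨hk, hyk⟩
        refine ⟨hVK v hv k hk, ?_⟩
        have h1 := hVX v hv _ hyk
        have h2 : mu F y (v * k) = v * mu F y k := by
          simp only [LinearMap.mulLeft_apply]; ring
        show mu F y (v * k) ∈ X
        rw [h2]; exact h1) (by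
        intro v hv x hx
        obtain ⟨a, ha, b, hb, rfl⟩ := Submodule.mem_sup.1 hx
        obtain ⟨k, hk, rfl⟩ := ha
        have h2 : v * (mu F y k + b) = mu F y (v * k) + v * b := by
          simp only [LinearMap.mulLeft_apply]; ring
        rw [h2]
        exact Submodule.add_mem_sup ⟨_, hVK v hv k hk, rfl⟩ (hVX v hv b hb)) hbound
    refine ⟨K', X', k1.trans inf_le_left, k2, k3, k4, k5, ?_, ?_⟩
    · have h := dm_ker X K y
      unfold dm at *
      omega
    · unfold dm at *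
      omega
  · have hbound : ∀ y ∈ V, dm (K.map (mu F y) ⊔ X) ≤ dm X + (ρ - 1) := by
      intro y hy
      have h1 := hρ y hy
      have h2 : dm (K.map (mu F y) ⊔ X) ≠ dm X + ρ := fun h => hex ⟨y, hy, h⟩
      omega
    obtain ⟨K', X', k1, k2, k3, k4, k5, k6, k7⟩ := ih (ρ - 1) (by omega) X K hK hX hVK hVX hbound
    exact ⟨K', X', k1, k2, k3, k4, k5, by omega, by omega⟩

/-- the powers `x^j V` -/
noncomputable def P (V : Submodule F A) (x : A) (j : ℕ) : Submodule F A := V.map (mu F (x ^ j))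

theorem P_mul (V : Submodule F A) (x : A) (i j : ℕ) :
    (P V x i).map (mu F (x ^ j)) = P V x (i + j) := by
  unfold P
  rw [← Submodule.map_comp]
  congr 1
  ext v
  simp only [LinearMap.comp_apply, LinearMap.mulLeft_apply, pow_add]
  ring

theorem P_anti {V : Submodule F A} {x : A} (hV : ∀ v ∈ V, x * v ∈ V) (i j : ℕ) :
    P V x (i + j) ≤ P V x i := by
  induction j with
  | zero => simp
  | succ j ih =>
    refine le_trans ?_ ih
    rintro _ ⟨v, hv, rfl⟩
    refine ⟨x * v, hV v hv, ?_⟩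
    simp only [LinearMap.mulLeft_apply]
    ring

theorem dm_P (V : Submodule F A) (x : A) (i j : ℕ) :
    dm (P V x (i + j)) + dm (P V x i ⊓ LinearMap.ker (mu F (x ^ j))) = dm (P V x i) := by
  have := finrank_map_add (mu F (x ^ j)) (P V x i)
  rw [P_mul] at this
  exact this

theorem convex {V : Submodule F A} {x : A} (hV : ∀ v ∈ V, x * v ∈ V) (i : ℕ) :
    2 * dm (P V x (i + 1)) ≤ dm (P V x i) + dm (P V x (i + 2)) := by
  have h1 := dm_P V x i 1
  have h2 := dm_P V x (i + 1) 1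
  rw [show i + 1 + 1 = i + 2 by ring] at h2
  have h3 : P V x (i + 1) ⊓ LinearMap.ker (mu F (x ^ 1)) ≤ P V x i ⊓ LinearMap.ker (mu F (x ^ 1)) :=
    inf_le_inf_right _ (P_anti hV i 1)
  have h4 := dm_mono h3
  unfold dm at *
  omega

/-- a null subalgebra inside `x^j V` -/
theorem null_aux {V : Submodule F A} {x : A} (hV : ∀ v ∈ V, x * v ∈ V) (n : ℕ)
    (hn : x ^ n = 0) (k : ℕ) : ∀ j, 1 ≤ j → n ≤ j + k →
    ∃ B ≤ P V x j, (∀ b ∈ B, ∀ b' ∈ B, b * b' = 0) ∧
      2 * dm (P V x j) ≤ 2 * dm B + dm (P V x (2 * j - 1)) := by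
  induction k with
  | zero =>
    intro j hj hnj
    refine ⟨⊥, bot_le, ?_, ?_⟩
    · intro b hb b' hb'
      rw [Submodule.mem_bot] at hb
      rw [hb, zero_mul]
    · have : P V x j = ⊥ := by
        rw [eq_bot_iff]
        rintro _ ⟨v, hv, rfl⟩
        have : x ^ j = 0 := by
          rw [show j = n + (j - n) by omega, pow_add, hn, zero_mul]
        simp [this]
      rw [this]
      simp
  | succ k ih =>
    intro j hj hnj
    obtain ⟨B, hB, hnull, hdim⟩ := ih (j + 1) (by omega) (by omega)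
    set E := P V x j ⊓ LinearMap.ker (mu F (x ^ j)) with hE
    refine ⟨E ⊔ B, sup_le inf_le_left (hB.trans (P_anti hV j 1)), ?_, ?_⟩
    · have hEE : ∀ b ∈ E, ∀ c ∈ P V x j, b * c = 0 := by
        rintro b ⟨hb1, hb2⟩ c ⟨v, hv, rfl⟩
        have hb2 : x ^ j * b = 0 := hb2
        rw [LinearMap.mulLeft_apply]
        calc b * (x ^ j * v) = (x ^ j * b) * v := by ring
          _ = 0 := by rw [hb2, zero_mul]
      intro b hb b' hb'
      obtain ⟨e, he, c, hc, rfl⟩ := Submodule.mem_sup.1 hb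
      obtain ⟨e', he', c', hc', rfl⟩ := Submodule.mem_sup.1 hb'
      have k1 := hEE e he e' he'.1
      have k2 := hEE e he c' (P_anti hV j 1 (hB hc'))
      have k3 := hEE e' he' c (P_anti hV j 1 (hB hc))
      have k4 := hnull c hc c' hc'
      calc (e + c) * (e' + c') = e * e' + e * c' + e' * c + c * c' := by ring
        _ = 0 := by rw [k1, k2, k3, k4]; simp
    · have h1 := dm_P V x j j
      have h2 := dm_P V x (j + 1) j
      have h3 := dm_sup_inf E B
      have h4 : E ⊓ B ≤ P V x (j + 1) ⊓ LinearMap.ker (mu F (x ^ j)) :=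
        le_inf (inf_le_right.trans hB) (inf_le_left.trans inf_le_right)
      have h5 := dm_mono h4
      have h6 := convex hV (2 * j - 1)
      rw [show 2 * j - 1 + 1 = j + j by omega, show 2 * j - 1 + 2 = j + 1 + j by omega] at h6
      rw [show 2 * (j + 1) - 1 = j + 1 + j by omega] at hdim
      rw [← hE] at h1
      unfold dm at *
      omega

theorem exists_null {V : Submodule F A} {x : A} (hV : ∀ v ∈ V, x * v ∈ V) (n : ℕ)
    (hn : x ^ n = 0) : ∃ B ≤ V.map (mu F x), (∀ b ∈ B, ∀ b' ∈ B, b * b' = 0) ∧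
      dm (V.map (mu F x)) ≤ 2 * dm B := by
  obtain ⟨B, h1, h2, h3⟩ := null_aux hV n hn n 1 (le_refl _) (by omega)
  have : P V x 1 = V.map (mu F x) := by unfold P; rw [pow_one]
  rw [this] at h1
  rw [show 2 * 1 - 1 = 1 by norm_num, this] at h3
  exact ⟨B, h1, h2, by unfold dm at *; omega⟩

/-- **Main algebraic theorem.** -/
theorem exists_subalgebra (V : Submodule F A) (hV : ∀ v ∈ V, ∀ w ∈ V, v * w ∈ V) (n : ℕ)
    (hn : ∀ v ∈ V, v ^ n = 0) :
    ∃ B Q : Submodule F A, Q ≤ B ∧ B ≤ V ∧ (∀ b ∈ B, ∀ b' ∈ B, b * b' ∈ Q) ∧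
      dm V + 9 * dm Q ≤ 9 * dm B := by
  classical
  -- maximal rank
  obtain ⟨x, hxV, hx⟩ : ∃ x ∈ V, ∀ y ∈ V, dm (V.map (mu F y)) ≤ dm (V.map (mu F x)) := by
    have hb : ∃ m, ∀ y ∈ V, dm (V.map (mu F y)) ≤ m := ⟨finrank F A, fun y _ => Submodule.finrank_le _⟩
    have hmin := Nat.find_spec hb
    by_cases h0 : Nat.find hb = 0
    · refine ⟨0, V.zero_mem, fun y hy => ?_⟩
      have := hmin y hy
      omega
    · have := Nat.find_min hb (m := Nat.find hb - 1) (by omega)
      push Not at this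
      obtain ⟨x, hx, hlt⟩ := this
      exact ⟨x, hx, fun y hy => by have := hmin y hy; omega⟩
  set ρ := dm (V.map (mu F x)) with hρ
  by_cases hbig : 2 * dm V ≤ 9 * ρ
  · obtain ⟨B, h1, h2, h3⟩ := exists_null (hV x hxV) n (hn x hxV)
    refine ⟨B, ⊥, bot_le, h1.trans ?_, ?_, ?_⟩
    · rintro _ ⟨v, hv, rfl⟩
      exact hV x hxV v hv
    · intro b hb b' hb'
      rw [h2 b hb b' hb']
      exact Submodule.zero_mem _
    · have : dm (⊥ : Submodule F A) = 0 := finrank_bot F A
      rw [this]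
      unfold dm at *
      omega
  · obtain ⟨K, X, k1, k2, k3, k4, k5, k6, k7⟩ := greedy V ρ ⊥ V (le_refl _) bot_le
      hV (by
        intro v hv x hx
        rw [Submodule.mem_bot] at hx
        rw [hx, mul_zero]
        exact Submodule.zero_mem _) (by
        intro y hy
        rw [sup_bot_eq]
        have := hx y hy
        omega)
    refine ⟨K ⊔ X, X, le_sup_right, sup_le k1 k2, ?_, ?_⟩
    · intro b hb b' hb'
      obtain ⟨e, he, c, hc, rfl⟩ := Submodule.mem_sup.1 hb
      obtain ⟨e', he', c', hc', rfl⟩ := Submodule.mem_sup.1 hb'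
      have h1 : (e + c) * (e' + c') = e * e' + (e * c' + (e' + c') * c) := by ring
      rw [h1]
      refine X.add_mem (k5 e (k1 he) e' he') (X.add_mem (k4 e (k1 he) c' hc') ?_)
      exact k4 _ (V.add_mem (k1 he') (k2 hc')) c hc
    · have h1 : dm (⊥ : Submodule F A) = 0 := finrank_bot F A
      have h2 : dm K ≤ dm (K ⊔ X) := dm_mono le_sup_left
      rw [h1] at k7
      unfold dm at *
      omega

end Pool.Agent.NilRank
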